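import Pool.Agent.Work.MP_10f4af_ag.K3

open Pool.Agent.Work.MP_10f4af_ag
open Pool.Agent.Work.MP_ffcd14_ag (Amb)

universe u v w

namespace Pool.Agent.Work.MP_10f4af_ag.Old.AlgebraicCohomology

/-- If the cohomology is algebraic, independence is equivalent to the injectivity of the cycle
class map. -/
theorem result {k : Type u} [Field k] [IsAlgClosed k] {K : Type v} [Field K] [CharZero K]
    (W : Weil.{u, v, w} k K) {P : Amb} (X : SV k P)
    (h : Submodule.span K {x | ∃ i, ∃ z ∈ CH X i, x = W.cl X z} = ⊤) :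
    List.TFAE [∀ i m, Indep W X (Fil X i m), ∀ i m, Indep W X (Ker X i m),
      ∀ i, Set.InjOn (W.cl X) (CH X i)] :=
  H3 W X h

end Pool.Agent.Work.MP_10f4af_ag.Old.AlgebraicCohomology
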