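import Pool.Agent.Work.MP_10f4af_ag.K5

open Pool.Agent.Work.MP_10f4af_ag
open Pool.Agent.Work.MP_ffcd14_ag (Amb)

universe u v w

namespace Pool.Agent.Work.MP_10f4af_ag.Old.FiniteDim

/-- One case of independence on a power implies finite dimensionality in the sense of Kimura. -/
theorem result {k : Type u} [Field k] [IsAlgClosed k] {K : Type v} [Field K] [CharZero K]
    (W : Weil.{u, v, w} k K) {P : Amb} (X : SV k P) (π : Fin (2 * X.dim + 1) → Cl (X.prod X))
    (hπ : IsCK W X π) (N : ℕ) (hN : Module.finrank K (W.H X) < N)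
    (h : Indep W ((X.pow (Fin N)).prod (X.pow (Fin N)))
        (Fil ((X.pow (Fin N)).prod (X.pow (Fin N))) (N * X.dim) 0) ∨
      Indep W ((X.pow (Fin N)).prod (X.pow (Fin N)))
        (Ker ((X.pow (Fin N)).prod (X.pow (Fin N))) (N * X.dim) 1)) :
    comp (X.pow (Fin N)) (∑ σ : Equiv.Perm (Fin N), ((Equiv.Perm.sign σ : ℤ) : ℚ) • gr X σ)
        (tens X N (∑ j : Fin (2 * X.dim + 1) with Even j.val, π j)) = 0 ∧
      comp (X.pow (Fin N)) (∑ σ : Equiv.Perm (Fin N), gr X σ)
        (tens X N (∑ j : Fin (2 * X.dim + 1) with Odd j.val, π j)) = 0 :=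
  H2 W X π hπ N hN h

end Pool.Agent.Work.MP_10f4af_ag.Old.FiniteDim
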