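import Pool.Agent.Work.MP_10f4af_ag.VG.H2

open Pool.Agent.Work.MP_10f4af_ag
open Pool.Agent.Work.MP_ffcd14_ag (Amb)

universe u

namespace Pool.Agent.Work.MP_10f4af_ag.Old.Nilpotence

/-- On a very general complete intersection whose diagonal is not numerically decomposable,
numerically trivial correspondences of degree zero are nilpotent. -/
theorem result {k : Type u} [Field k] [IsAlgClosed k] {P : Amb} (X : SV k P) (h : VG X)
    (hn : ∀ δ ∈ Dec X, ¬ Num X (dia X - δ)) (γ : Cl (X.prod X)) (hγ : Num X γ) :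
    ∃ n, (comp X γ)^[n] γ = 0 :=
  HN h hn hγ

end Pool.Agent.Work.MP_10f4af_ag.Old.Nilpotence
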