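import Pool.Agent.Work.MP_10f4af_ag.K4

open Pool.Agent.Work.MP_10f4af_ag
open Pool.Agent.Work.MP_ffcd14_ag (Amb)

universe u v w

namespace Pool.Agent.Work.MP_10f4af_ag.Old.NoPhantom

/-- One case of independence on the square implies that there is no phantom projector. -/
theorem result {k : Type u} [Field k] [IsAlgClosed k] {K : Type v} [Field K] [CharZero K]
    (W : Weil.{u, v, w} k K) {P : Amb} (X : SV k P)
    (π : Fin (2 * X.dim + 1) → Cl (X.prod X)) (hπ : IsCK W X π)
    (h : Indep W (X.prod X) (Fil (X.prod X) X.dim 0) ∨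
      Indep W (X.prod X) (Ker (X.prod X) X.dim 1))
    (p : Cl (X.prod X)) (hp : p ∈ CH (X.prod X) X.dim) (hpp : comp X p p = p)
    (h0 : ∀ x, W.act X p x = 0) : p = 0 :=
  H4 W X π hπ h p hp hpp h0

end Pool.Agent.Work.MP_10f4af_ag.Old.NoPhantom
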