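import Pool.Agent.Work.MP_10f4af_ag.GL.Q2

open Pool.Agent.Work.MP_10f4af_ag
open Pool.Agent.Work.MP_ffcd14_ag (Amb)

universe u v w

namespace Pool.Agent.Work.MP_10f4af_ag.Old.ProjSpace

/-- For a very general complete intersection in one projective space whose cohomology is not
algebraic, the filtration is independent of the decomposition if and only if the cycle class map
is injective in the codimensions `i` with `1 < i` and `2 i < dim X`. -/
theorem result {k : Type u} [Field k] [IsAlgClosed k] {K : Type v} [Field K] [CharZero K]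
    (W : Weil.{u, v, w} k K) (hW : W.Lef) {P : Amb} (hP : Nat.card P.ι = 1) (X : SV k P)
    (h : VG X) (hA : W.Alg X ≠ ⊤) :
    (∀ i m, Indep W X (Fil X i m)) ↔
      ∀ i, 1 < i → 2 * i < X.dim → Set.InjOn (W.cl X) (CH X i) :=
  HG hW hP h hA

end Pool.Agent.Work.MP_10f4af_ag.Old.ProjSpace
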