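import Pool.Agent.Work.MP_10f4af_ag.VG.H2

open Pool.Agent.Work.MP_10f4af_ag
open Pool.Agent.Work.MP_ffcd14_ag (Amb)

universe u v w

namespace Pool.Agent.Work.MP_10f4af_ag.Old.VeryGeneral

/-- For a very general complete intersection whose cohomology is not algebraic, the filtration is
independent of the decomposition if and only if the cycle class map is injective in the
codimensions `i` with `0 < 2 i < dim X`. -/
theorem result {k : Type u} [Field k] [IsAlgClosed k] {K : Type v} [Field K] [CharZero K]
    (W : Weil.{u, v, w} k K) (hW : W.Lef) {P : Amb} (X : SV k P) (h : VG X) (hA : W.Alg X ≠ ⊤) :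
    (∀ i m, Indep W X (Fil X i m)) ↔
      ∀ i, 0 < i → 2 * i < X.dim → Set.InjOn (W.cl X) (CH X i) :=
  HE hW h hA

end Pool.Agent.Work.MP_10f4af_ag.Old.VeryGeneral
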